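import Pool.Agent.Y642.LT.E2

/-!
Project LT (helper872), part LT-E (helper642): correlations along the primes.
-/

set_option autoImplicit false

namespace Pool.Agent.Y642.LT

open Finset Filter
open Pool.Agent.TH112.BL
open Pool.Agent.Y872.L
open Pool.Agent.Helper602.MK (PP)
open Pool.Agent.H807R2.Dav (ee norm_ee ee_add ee_int ee_pow ee_zero ee_eq)
open Pool.Agent.H373R2.T7 (orth sq_expand conj_ee)

variable {μ : LM} {f : ℕ → ℤ}

/-- differences of the pairs of `A` -/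
def dd (x : ℕ × ℕ) : ℤ := (x.1 : ℤ) - x.2

/-- the energy of a set from the fourth moment of its exponential sum -/
lemma energy_moment (A B : Finset ℕ) (hAB : A ⊆ B) (M : ℕ) (hM : 1 ≤ M) :
    (M : ℝ) * ∑ x ∈ A ×ˢ A, (((A ×ˢ A).filter (fun y => dd y = dd x)).card : ℝ) ≤
      ∑ t ∈ range M, ‖∑ p ∈ B, ee ((t : ℝ) * ((p : ℝ) / M))‖ ^ 4 := by
  have h1 : ∀ t : ℕ, ‖∑ p ∈ B, ee ((t : ℝ) * ((p : ℝ) / M))‖ ^ 4 =
      ‖∑ x ∈ B ×ˢ B, (1 : ℂ) * ee ((t : ℝ) * ((dd x : ℝ) / M))‖ ^ 2 := by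
    intro t
    have e1 : ∑ x ∈ B ×ˢ B, (1 : ℂ) * ee ((t : ℝ) * ((dd x : ℝ) / M)) =
        (∑ p ∈ B, ee ((t : ℝ) * ((p : ℝ) / M))) * (starRingEnd ℂ) (∑ p ∈ B, ee ((t : ℝ) * ((p : ℝ) / M))) := by
      rw [map_sum, sum_mul_sum, sum_product]
      apply sum_congr rfl
      intro p _
      apply sum_congr rfl
      intro q _
      rw [conj_ee, one_mul, ← ee_add]
      congr 1
      unfold dd
      push_cast
      ring
    rw [e1, Complex.mul_conj', norm_pow, Complex.norm_real, norm_norm, ← pow_mul]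
  rw [sum_congr rfl fun t _ => h1 t]
  have h2 := sq_expand (B ×ˢ B) (fun _ => 1) dd M hM
  simp only [one_mul, map_one] at h2 ⊢
  have h3 : (∑ t ∈ range M, ‖∑ x ∈ B ×ˢ B, ee ((t : ℝ) * ((dd x : ℝ) / M))‖ ^ 2 : ℝ) =
      ∑ x ∈ B ×ˢ B, ∑ y ∈ B ×ˢ B, (if (M : ℤ) ∣ dd x - dd y then (M : ℝ) else 0) := by
    have h4 : (((∑ t ∈ range M, ‖∑ x ∈ B ×ˢ B, ee ((t : ℝ) * ((dd x : ℝ) / M))‖ ^ 2 : ℝ)) : ℂ) =
        ((∑ x ∈ B ×ˢ B, ∑ y ∈ B ×ˢ B, (if (M : ℤ) ∣ dd x - dd y then (M : ℝ) else 0) : ℝ) : ℂ) := by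
      rw [h2]
      push_cast
      apply sum_congr rfl
      intro i _
      apply sum_congr rfl
      intro j _
      split_ifs <;> simp
    exact_mod_cast h4
  rw [h3, mul_sum]
  have hsub : A ×ˢ A ⊆ B ×ˢ B := product_subset_product hAB hAB
  have hnn : ∀ x y : ℕ × ℕ, (0 : ℝ) ≤ (if (M : ℤ) ∣ dd x - dd y then (M : ℝ) else 0) := by
    intro x y
    split_ifs <;> positivity
  refine le_trans ?_ (sum_le_sum_of_subset_of_nonneg hsub fun x _ _ => sum_nonneg fun y _ => hnn x y)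
  apply sum_le_sum
  intro x _
  refine le_trans ?_ (sum_le_sum_of_subset_of_nonneg hsub fun y _ _ => hnn x y)
  rw [card_filter]
  push_cast
  rw [mul_sum]
  apply sum_le_sum
  intro y _
  by_cases h : dd y = dd x
  · rw [if_pos h, if_pos (by rw [h, sub_self]; exact dvd_zero _)]
    simp
  · rw [if_neg h, mul_zero]
    exact hnn x y

/-- Cauchy's inequality for sums over differences -/
lemma diff_cs (A : Finset ℕ) (k : ℕ) (hA : ∀ p ∈ A, 1 ≤ p ∧ p ≤ k) (g : ℤ → ℝ) (hg : ∀ z, g (-z) = g z) :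
    (∑ x ∈ A ×ˢ A, |g (dd x)|) ^ 2 ≤
      (∑ x ∈ A ×ˢ A, (((A ×ˢ A).filter (fun y => dd y = dd x)).card : ℝ)) *
        (2 * ∑ m ∈ range k, g m ^ 2) := by
  classical
  set D := (A ×ˢ A).image dd with hD
  have h1 : ∑ x ∈ A ×ˢ A, |g (dd x)| = ∑ m ∈ D, (((A ×ˢ A).filter (fun y => dd y = m)).card : ℝ) * |g m| := by
    rw [sum_comp (fun m => |g m|) dd]
    apply sum_congr rfl
    intro m _
    rw [nsmul_eq_mul]
  have h2 : ∑ x ∈ A ×ˢ A, (((A ×ˢ A).filter (fun y => dd y = dd x)).card : ℝ) =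
      ∑ m ∈ D, (((A ×ˢ A).filter (fun y => dd y = m)).card : ℝ) ^ 2 := by
    rw [sum_comp (fun m => (((A ×ˢ A).filter (fun y => dd y = m)).card : ℝ)) dd]
    apply sum_congr rfl
    intro m _
    rw [nsmul_eq_mul, sq]
  rw [h1, h2]
  refine (sum_mul_sq_le_sq_mul_sq D _ _).trans ?_
  apply mul_le_mul_of_nonneg_left _ (sum_nonneg fun _ _ => by positivity)
  have h3 : D ⊆ (range k).image (fun m : ℕ => (m : ℤ)) ∪ (range k).image (fun m : ℕ => -(m : ℤ)) := by
    intro m hm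
    rw [hD, mem_image] at hm
    obtain ⟨x, hx, rfl⟩ := hm
    rw [mem_product] at hx
    have a1 := hA _ hx.1
    have a2 := hA _ hx.2
    rw [mem_union, mem_image, mem_image]
    unfold dd
    rcases le_total x.2 x.1 with h | h
    · left
      exact ⟨x.1 - x.2, by rw [mem_range]; omega, by omega⟩
    · right
      exact ⟨x.2 - x.1, by rw [mem_range]; omega, by omega⟩
  have h4 : ∀ s : Finset ℤ, (0 : ℝ) ≤ ∑ m ∈ s, |g m| ^ 2 := fun s => sum_nonneg fun _ _ => by positivity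
  calc ∑ m ∈ D, |g m| ^ 2 ≤ ∑ m ∈ (range k).image (fun m : ℕ => (m : ℤ)) ∪ (range k).image (fun m : ℕ => -(m : ℤ)), |g m| ^ 2 :=
        sum_le_sum_of_subset_of_nonneg h3 fun _ _ _ => by positivity
    _ ≤ ∑ m ∈ (range k).image (fun m : ℕ => (m : ℤ)), |g m| ^ 2 + ∑ m ∈ (range k).image (fun m : ℕ => -(m : ℤ)), |g m| ^ 2 := by
        rw [← sum_union_inter]
        linarith [h4 ((range k).image (fun m : ℕ => (m : ℤ)) ∩ (range k).image (fun m : ℕ => -(m : ℤ)))]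
    _ = 2 * ∑ m ∈ range k, g m ^ 2 := by
        rw [sum_image (by intro a _ b _ hab; simpa using hab), sum_image (by intro a _ b _ hab; simpa using hab)]
        simp only [hg, sq_abs]
        ring

/-- the sum over a set of shifts from the sum over its differences -/
lemma shifts (hf : CM f) (h : ℕ) (A : Finset ℕ) :
    (∑ p ∈ A, |C2 μ f (p * h)|) ^ 2 ≤ ∑ x ∈ A ×ˢ A, |cc μ f h (dd x)| := by
  set u : ℕ → ℝ := fun p => if 0 ≤ C2 μ f (p * h) then 1 else -1 with hu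
  have hu1 : ∀ p, |u p| = 1 := by
    intro p
    simp only [hu]
    split_ifs <;> simp
  have hu2 : ∀ p, |C2 μ f (p * h)| = u p * C2 μ f (p * h) := by
    intro p
    simp only [hu]
    split_ifs with h1
    · rw [abs_of_nonneg h1, one_mul]
    · rw [abs_of_neg (not_le.1 h1)]; ring
  set X : ℕ → ℝ := fun n => ∑ p ∈ A, u p * (f (n + p * h) : ℝ) with hX
  have hXb : Bd X := Bd.sum _ fun p _ => (fbd hf _).cmul _
  have h1 : ∑ p ∈ A, |C2 μ f (p * h)| = μ.m (fun n => (f n : ℝ) * X n) := by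
    have e1 : (fun n => (f n : ℝ) * X n) = fun n => ∑ p ∈ A, u p * ((f n : ℝ) * f (n + p * h)) := by
      funext n
      rw [hX, mul_sum]
      apply sum_congr rfl
      intro p _
      ring
    rw [e1, μ.sum _ (fun p _ => (bdmul (fbd hf _) (fbd hf _)).cmul _)]
    apply sum_congr rfl
    intro p _
    rw [μ.smul _ _ (bdmul (fbd hf _) (fbd hf _)), hu2]
    rfl
  have h2 : ∑ p ∈ A, |C2 μ f (p * h)| ≤ μ.m (fun n => |X n|) := by
    rw [h1]
    apply μ.mono (bdmul (fbd hf _) hXb) hXb.abs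
    intro n
    calc (f n : ℝ) * X n ≤ |(f n : ℝ) * X n| := le_abs_self _
      _ ≤ 1 * |X n| := by
        rw [abs_mul]
        exact mul_le_mul_of_nonneg_right (fabs hf n) (abs_nonneg _)
      _ = |X n| := one_mul _
  have h3 : μ.m (fun n => X n ^ 2) = ∑ x ∈ A ×ˢ A, (u x.1 * u x.2) * cc μ f h (dd x) := by
    have e1 : (fun n => X n ^ 2) = fun n => ∑ x ∈ A ×ˢ A, (u x.1 * u x.2) * ((f (n + x.1 * h) : ℝ) * f (n + x.2 * h)) := by
      funext n
      rw [hX, sq, sum_mul_sum, sum_product]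
      apply sum_congr rfl
      intro p _
      apply sum_congr rfl
      intro q _
      ring
    rw [e1, μ.sum _ (fun x _ => (bdmul (fbd hf _) (fbd hf _)).cmul _)]
    apply sum_congr rfl
    intro x _
    rw [μ.smul _ _ (bdmul (fbd hf _) (fbd hf _)), corr hf]
    rfl
  calc (∑ p ∈ A, |C2 μ f (p * h)|) ^ 2 ≤ μ.m (fun n => |X n|) ^ 2 :=
        pow_le_pow_left₀ (sum_nonneg fun _ _ => abs_nonneg _) h2 2
    _ ≤ μ.m (fun n => X n ^ 2) := cs hXb
    _ = _ := h3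
    _ ≤ _ := by
        apply sum_le_sum
        intro x _
        calc _ ≤ |(u x.1 * u x.2) * cc μ f h (dd x)| := le_abs_self _
          _ = _ := by rw [abs_mul, abs_mul, hu1, hu1]; ring

lemma QD_sub (i : ℕ) (hi : 1 ≤ i) : QD i (i + 1) ⊆ PP (2 ^ (i + 1)) := by
  intro p hp
  unfold QD at hp
  unfold PP
  rw [mem_filter, mem_Ioc] at hp
  rw [mem_filter, mem_Icc]
  refine ⟨⟨hp.2.one_lt.le, hp.1.2⟩, hp.2, ?_⟩
  have h1 : 2 ^ (i + 1) ≤ 2 ^ i * 2 ^ i := by
    rw [← pow_add]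
    exact Nat.pow_le_pow_right (by norm_num) (by omega)
  have h2 : 2 ^ i * 2 ^ i < p * p := Nat.mul_self_lt_mul_self hp.1.1
  rw [sq]
  omega

theorem ee_of_uu : S_E := by
  intro μ f hf hU h hh ε hε
  obtain ⟨C, hC, k0, hk0, hmom⟩ := Pool.Agent.TH823.MRS.pp_moment
  obtain ⟨H0, hH0⟩ := step1 hf hU hh (ε := ε ^ 4 / (64 * C)) (by positivity)
  refine ⟨H0 + k0 + 1, fun i hi => ?_⟩
  set k := 2 ^ (i + 1) with hk
  have hik : i + 1 < k := Nat.lt_two_pow_self
  set A := QD i (i + 1) with hA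
  have hkr : (1 : ℝ) < k := by exact_mod_cast (by omega : 1 < k)
  have hlog : 0 < Real.log k := Real.log_pos hkr
  have hk0' : (0 : ℝ) < k := by linarith
  -- the sum over the primes
  set S := ∑ p ∈ A, |C2 μ f (p * h)| with hS
  have hS0 : 0 ≤ S := sum_nonneg fun _ _ => abs_nonneg _
  have h1 := shifts (μ := μ) hf h A
  have h2 := diff_cs A k (by
    intro p hp
    rw [hA] at hp
    unfold QD at hp
    rw [mem_filter, mem_Ioc] at hp
    exact ⟨hp.2.one_lt.le, hp.1.2⟩) (cc μ f h) (cc_neg h)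
  have h3 := energy_moment A (PP k) (QD_sub i (by omega)) (2 * k) (by omega)
  have h4 := hmom k (by omega)
  have h5 := step3 (μ := μ) hf h k (by omega) (ε ^ 4 / (64 * C) * k) (fun α => hH0 k (by omega) α)
  set E := ∑ x ∈ A ×ˢ A, (((A ×ˢ A).filter (fun y => dd y = dd x)).card : ℝ) with hE
  have hE0 : 0 ≤ E := sum_nonneg fun _ _ => by positivity
  set T := ∑ x ∈ A ×ˢ A, |cc μ f h (dd x)| with hT
  have hT0 : 0 ≤ T := sum_nonneg fun _ _ => abs_nonneg _
  have h6 : (2 * k : ℝ) * E ≤ C * (k / Real.log k) ^ 4 := by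
    have := h3.trans h4
    push_cast at this
    exact this
  -- the fourth power
  have h7 : S ^ 4 ≤ E * (2 * (2 * (ε ^ 4 / (64 * C) * k))) := by
    calc S ^ 4 = (S ^ 2) ^ 2 := by ring
      _ ≤ T ^ 2 := pow_le_pow_left₀ (sq_nonneg _) h1 2
      _ ≤ E * (2 * ∑ m ∈ range k, cc μ f h m ^ 2) := h2
      _ ≤ _ := by
        apply mul_le_mul_of_nonneg_left _ hE0
        linarith
  have h8 : S ^ 4 ≤ ε ^ 4 / 32 * (k / Real.log k) ^ 4 := by
    calc S ^ 4 ≤ E * (2 * (2 * (ε ^ 4 / (64 * C) * k))) := h7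
      _ = (ε ^ 4 / (32 * C)) * ((2 * k : ℝ) * E) := by
        field_simp
        ring
      _ ≤ (ε ^ 4 / (32 * C)) * (C * (k / Real.log k) ^ 4) := mul_le_mul_of_nonneg_left h6 (by positivity)
      _ = _ := by field_simp
  have h9 : (2 * Real.log k / k * S) ^ 4 ≤ ε ^ 4 := by
    calc (2 * Real.log k / k * S) ^ 4 = (2 * Real.log k / k) ^ 4 * S ^ 4 := by ring
      _ ≤ (2 * Real.log k / k) ^ 4 * (ε ^ 4 / 32 * (k / Real.log k) ^ 4) :=
        mul_le_mul_of_nonneg_left h8 (by positivity)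
      _ = ε ^ 4 / 2 := by
        field_simp
        ring
      _ ≤ ε ^ 4 := by
        have : (0 : ℝ) < ε ^ 4 := by positivity
        linarith
  have h10 : 2 * Real.log k / k * S ≤ ε :=
    (pow_le_pow_iff_left₀ (by positivity) hε.le (by norm_num)).1 h9
  refine le_trans ?_ h10
  rw [hS, mul_sum]
  apply sum_le_sum
  intro p hp
  apply mul_le_mul_of_nonneg_right _ (abs_nonneg _)
  rw [hA] at hp
  unfold QD at hp
  rw [mem_filter, mem_Ioc] at hp
  have hp0 : (0 : ℝ) < p := by exact_mod_cast hp.2.pos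
  have hpk : (p : ℝ) ≤ k := by exact_mod_cast hp.1.2
  have e1 : (2 * Real.log k / k : ℝ) = Real.log k / 2 ^ i := by
    have : (k : ℝ) = 2 ^ i * 2 := by rw [hk]; push_cast; rw [pow_succ]
    rw [div_eq_div_iff hk0'.ne' (by positivity), this]
    ring
  rw [e1]
  exact div_le_div_of_nonneg_right (Real.log_le_log hp0 hpk) (by positivity)

end Pool.Agent.Y642.LT
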