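import Pool.Agent.Y872.L.Defs
import Pool.Agent.TH823.MRS.Circ4

/-!
Project LT (helper872), part LT-E (helper642): a logarithmic mean with vanishing exponential sums
has correlations of order two that vanish in mean square.
-/

set_option autoImplicit false

namespace Pool.Agent.Y642.LT

open Finset Filter
open Pool.Agent.TH112.BL
open Pool.Agent.Y872.L
open Pool.Agent.H807R2.Dav (ee norm_ee ee_add ee_int ee_pow ee_zero ee_eq)
open Pool.Agent.H373R2.T7 (orth sq_expand)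

lemma sum_mult {h : ℕ} (hh : 0 < h) (F : ℕ → ℂ) (H : ℕ) :
    ∑ j ∈ range (h * H), (if h ∣ j then F j else 0) = ∑ k ∈ range H, F (k * h) := by
  induction H with
  | zero => simp
  | succ H ih =>
    rw [Nat.mul_succ, sum_range_add, ih, sum_range_succ]
    congr 1
    rw [sum_eq_single 0]
    · rw [add_zero, if_pos (dvd_mul_right h H), mul_comm]
    · intro i hi hi0
      rw [mem_range] at hi
      rw [if_neg]
      intro hd
      rw [Nat.dvd_add_right (dvd_mul_right h H)] at hd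
      exact hi0 (Nat.eq_zero_of_dvd_of_lt hd hi)
    · intro h0
      exact absurd (mem_range.2 hh) h0

lemma detect {c : ℕ} (hc : 1 ≤ c) (l : ℕ) :
    ∑ b ∈ range c, ee ((l : ℝ) * ((b : ℝ) / c)) = if c ∣ l then (c : ℂ) else 0 := by
  have h1 := orth c hc (l : ℤ)
  have h2 : ((c : ℤ) ∣ (l : ℤ)) ↔ c ∣ l := Int.natCast_dvd_natCast
  rw [if_congr h2 rfl rfl] at h1
  rw [← h1]
  apply sum_congr rfl
  intro b _
  congr 1
  push_cast
  ring

/-- exponential sums along progressions -/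
lemma along {h : ℕ} (hh : 0 < h) (g : ℕ → ℂ) (H : ℕ) (α : ℝ) :
    ∑ k ∈ range H, g (k * h) * ee ((k : ℝ) * α) =
      (1 / (h : ℂ)) * ∑ l ∈ range h, ∑ j ∈ range (h * H), g j * ee ((j : ℝ) * ((α + l) / h)) := by
  have hh0 : (h : ℝ) ≠ 0 := by exact_mod_cast hh.ne'
  have hh1 : (h : ℂ) ≠ 0 := by exact_mod_cast hh.ne'
  rw [sum_comm, mul_sum]
  have h1 : ∀ j ∈ range (h * H), 1 / (h : ℂ) * ∑ l ∈ range h, g j * ee ((j : ℝ) * ((α + l) / h)) =
      if h ∣ j then g j * ee ((j : ℝ) * (α / h)) else 0 := by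
    intro j _
    have h2 : ∀ l ∈ range h, g j * ee ((j : ℝ) * ((α + l) / h)) =
        g j * ee ((j : ℝ) * (α / h)) * ee ((j : ℝ) * ((l : ℝ) / h)) := by
      intro l _
      rw [mul_assoc, ← ee_add]
      congr 2
      ring
    rw [sum_congr rfl h2, ← mul_sum, detect hh j]
    split_ifs
    · field_simp
    · ring
  rw [sum_congr rfl h1, sum_mult hh]
  apply sum_congr rfl
  intro k _
  congr 2
  push_cast
  field_simp

variable {μ : LM} {f : ℕ → ℤ}

lemma fabs (hf : CM f) (n : ℕ) : |(f n : ℝ)| ≤ 1 := by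
  rcases Nat.eq_zero_or_pos n with rfl | h
  · rw [hf.zero]; simp
  · rcases hf.val n h with h1 | h1 <;> rw [h1] <;> simp

lemma fbd (hf : CM f) (g : ℕ → ℕ) : Bd (fun n => (f (g n) : ℝ)) := ⟨1, fun _ => fabs hf _⟩

lemma bdmul {φ ψ : ℕ → ℝ} (h1 : Bd φ) (h2 : Bd ψ) : Bd (fun n => φ n * ψ n) := by
  obtain ⟨C, hC⟩ := h1
  obtain ⟨D, hD⟩ := h2
  refine ⟨C * D, fun n => ?_⟩
  rw [abs_mul]
  exact mul_le_mul (hC n) (hD n) (abs_nonneg _) ((abs_nonneg _).trans (hC n))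

lemma norm_exp_sum (hf : CM f) (H h n : ℕ) (α : ℝ) :
    ‖∑ k ∈ range H, (f (n + k * h) : ℂ) * ee ((k : ℝ) * α)‖ ≤ H := by
  refine (norm_sum_le _ _).trans ?_
  calc ∑ k ∈ range H, ‖(f (n + k * h) : ℂ) * ee ((k : ℝ) * α)‖ ≤ ∑ k ∈ range H, (1 : ℝ) := by
        apply sum_le_sum
        intro k _
        rw [norm_mul, norm_ee, mul_one]
        have := fabs hf (n + k * h)
        rw [← Real.norm_eq_abs] at this
        simpa using this
    _ = H := by simp

lemma bd_exp_sum (hf : CM f) (H h : ℕ) (α : ℝ) :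
    Bd (fun n => ‖∑ k ∈ range H, (f (n + k * h) : ℂ) * ee ((k : ℝ) * α)‖) :=
  ⟨H, fun n => by rw [abs_of_nonneg (norm_nonneg _)]; exact norm_exp_sum hf H h n α⟩

/-- step 1: exponential sums along progressions are small in the mean -/
lemma step1 (hf : CM f) (hU : UU μ f) {h : ℕ} (hh : 0 < h) {ε : ℝ} (hε : 0 < ε) :
    ∃ H₀ : ℕ, ∀ H : ℕ, H₀ ≤ H → ∀ α : ℝ,
      μ.m (fun n => ‖∑ k ∈ range H, (f (n + k * h) : ℂ) * ee ((k : ℝ) * α)‖) ≤ ε * H := by
  have hh0 : (0 : ℝ) < h := by exact_mod_cast hh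
  obtain ⟨W₀, hW⟩ := hU (ε / h) (by positivity)
  refine ⟨W₀, fun H hH α => ?_⟩
  have hbd : ∀ l ∈ range h, Bd (fun n => ‖∑ j ∈ range (h * H), (f (n + j) : ℂ) * ee ((j : ℝ) * ((α + l) / h))‖) := by
    intro l _
    have := bd_exp_sum hf (h * H) 1 ((α + l) / h)
    simpa using this
  have h1 : ∀ n, ‖∑ k ∈ range H, (f (n + k * h) : ℂ) * ee ((k : ℝ) * α)‖ ≤
      (1 / (h : ℝ)) * ∑ l ∈ range h, ‖∑ j ∈ range (h * H), (f (n + j) : ℂ) * ee ((j : ℝ) * ((α + l) / h))‖ := by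
    intro n
    rw [along hh (fun j => (f (n + j) : ℂ)) H α, norm_mul]
    have : ‖(1 / (h : ℂ))‖ = 1 / (h : ℝ) := by simp
    rw [this]
    apply mul_le_mul_of_nonneg_left (norm_sum_le _ _) (by positivity)
  refine (μ.mono (bd_exp_sum hf H h α) ((Bd.sum _ hbd).cmul (1 / (h : ℝ))) h1).trans ?_
  rw [μ.smul _ _ (Bd.sum _ hbd), μ.sum _ hbd]
  have h2 : ∑ l ∈ range h, μ.m (fun n => ‖∑ j ∈ range (h * H), (f (n + j) : ℂ) * ee ((j : ℝ) * ((α + l) / h))‖) ≤
      ∑ l ∈ range h, ε / h * ((h * H : ℕ) : ℝ) := by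
    apply sum_le_sum
    intro l _
    exact hW (h * H) (hH.trans (Nat.le_mul_of_pos_left H hh)) _
  rw [sum_const, card_range, nsmul_eq_mul] at h2
  calc _ ≤ (1 / (h : ℝ)) * (h * (ε / h * ((h * H : ℕ) : ℝ))) := mul_le_mul_of_nonneg_left h2 (by positivity)
    _ = ε * H := by
      push_cast
      field_simp

/-- the correlation as an even function on the integers -/
noncomputable def cc (μ : LM) (f : ℕ → ℤ) (h : ℕ) (z : ℤ) : ℝ := C2 μ f (z.natAbs * h)

lemma cc_neg (h : ℕ) (z : ℤ) : cc μ f h (-z) = cc μ f h z := by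
  unfold cc; rw [Int.natAbs_neg]

lemma cc_nat (h k : ℕ) : cc μ f h (k : ℤ) = C2 μ f (k * h) := by
  unfold cc; rw [Int.natAbs_natCast]

lemma corr_aux (hf : CM f) (h i j : ℕ) (hij : i ≤ j) :
    μ.m (fun n => (f (n + i * h) : ℝ) * f (n + j * h)) = C2 μ f ((j - i) * h) := by
  unfold C2
  rw [← μ.shiftk (i * h) (φ := fun n => (f n : ℝ) * f (n + (j - i) * h)) (bdmul (fbd hf _) (fbd hf _))]
  congr 1
  funext n
  congr 3
  rw [add_assoc, ← add_mul]
  congr 2
  omega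

lemma corr (hf : CM f) (h i j : ℕ) :
    μ.m (fun n => (f (n + i * h) : ℝ) * f (n + j * h)) = cc μ f h ((i : ℤ) - j) := by
  rcases le_total i j with hij | hij
  · rw [corr_aux hf h i j hij]
    unfold cc
    congr 2
    omega
  · have : (fun n => (f (n + i * h) : ℝ) * f (n + j * h)) = (fun n => (f (n + j * h) : ℝ) * f (n + i * h)) := by
      funext n; ring
    rw [this, corr_aux hf h j i hij]
    unfold cc
    congr 2
    omega

lemma cc_zero (hf : CM f) (h : ℕ) : cc μ f h 0 = 1 := by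
  unfold cc C2
  rw [← μ.one]
  apply μ.congr_large (bdmul (fbd hf _) (fbd hf _)) (Bd.const 1) 1
  intro n hn
  simp only [Int.natAbs_zero, zero_mul, add_zero]
  rcases hf.val n (by omega) with h1 | h1 <;> rw [h1] <;> simp

lemma cs {φ : ℕ → ℝ} (h : Bd φ) : μ.m (fun n => |φ n|) ^ 2 ≤ μ.m (fun n => φ n ^ 2) := by
  set t := μ.m (fun n => |φ n|) with ht
  have hb2 : Bd (fun n => φ n ^ 2) := by
    have := bdmul h h
    simpa [sq] using this
  have h0 : 0 ≤ μ.m (fun n => (φ n ^ 2 + (-(2 * t)) * |φ n|) + t ^ 2) := by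
    apply μ.nonneg
    · exact (hb2.add (h.abs.cmul _)).add (Bd.const _)
    · intro n
      have : (φ n ^ 2 + (-(2 * t)) * |φ n|) + t ^ 2 = (|φ n| - t) ^ 2 := by
        rw [← sq_abs (φ n)]; ring
      rw [this]
      positivity
  rw [μ.add _ _ (hb2.add (h.abs.cmul _)) (Bd.const _), μ.add _ _ hb2 (h.abs.cmul _), μ.smul _ _ h.abs] at h0
  have h1 : μ.m (fun _ => t ^ 2) = t ^ 2 := by
    have := μ.smul (t ^ 2) (fun _ => 1) (Bd.const 1)
    rw [μ.one] at this
    simpa using this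
  rw [h1, ← ht] at h0
  nlinarith

/-! ### The cosine -/

/-- the cosine of period one -/
noncomputable def co (x : ℝ) : ℝ := Real.cos (2 * Real.pi * x)

lemma ee_re (x : ℝ) : (ee x).re = co x := by
  rw [ee_eq, Complex.exp_ofReal_mul_I_re]
  rfl

lemma co_mul (x y : ℝ) : co x * co y = (co (x + y) + co (x - y)) / 2 := by
  unfold co
  rw [mul_add, mul_sub, Real.cos_add, Real.cos_sub]
  ring

lemma co_orth (M : ℕ) (hM : 1 ≤ M) (k : ℤ) :
    ∑ t ∈ range M, co ((t : ℝ) * ((k : ℝ) / M)) = if (M : ℤ) ∣ k then (M : ℝ) else 0 := by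
  have h := congrArg Complex.re (orth M hM k)
  rw [Complex.re_sum] at h
  simp only [ee_re] at h
  rw [h]
  split_ifs <;> simp

lemma norm_sq_real (a : ℕ → ℝ) (N : ℕ) (x : ℝ) :
    ‖∑ j ∈ range N, (a j : ℂ) * ee ((j : ℝ) * x)‖ ^ 2 =
      ∑ i ∈ range N, ∑ j ∈ range N, co ((((i : ℤ) - j : ℤ) : ℝ) * x) * (a i * a j) := by
  have h1 : ((‖∑ j ∈ range N, (a j : ℂ) * ee ((j : ℝ) * x)‖ ^ 2 : ℝ) : ℂ) =
      ∑ i ∈ range N, ∑ j ∈ range N, ((a i * a j : ℝ) : ℂ) * ee ((((i : ℤ) - j : ℤ) : ℝ) * x) := by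
    push_cast
    rw [← Complex.mul_conj', map_sum, sum_mul_sum]
    apply sum_congr rfl
    intro i _
    apply sum_congr rfl
    intro j _
    rw [map_mul, Pool.Agent.H373R2.T7.conj_ee, Complex.conj_ofReal]
    have : ee (((i : ℝ) - j) * x) = ee ((i : ℝ) * x) * ee (-((j : ℝ) * x)) := by
      rw [← ee_add]; congr 1; ring
    rw [this]
    ring
  have h2 := congrArg Complex.re h1
  rw [Complex.ofReal_re, Complex.re_sum] at h2
  rw [h2]
  apply sum_congr rfl
  intro i _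
  rw [Complex.re_sum]
  apply sum_congr rfl
  intro j _
  rw [Complex.re_ofReal_mul, ee_re]
  ring

end Pool.Agent.Y642.LT
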