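import Pool.Agent.Y642.LT.E1

/-!
Project LT (helper872), part LT-E (helper642): the finite Herglotz formula and mean squares of the
correlations.
-/

set_option autoImplicit false

namespace Pool.Agent.Y642.LT

open Finset Filter
open Pool.Agent.TH112.BL
open Pool.Agent.Y872.L
open Pool.Agent.H807R2.Dav (ee norm_ee ee_add ee_int ee_pow ee_zero ee_eq)

variable {μ : LM} {f : ℕ → ℤ}

/-- the spectral weights -/
noncomputable def ρ (μ : LM) (f : ℕ → ℤ) (h N M ξ : ℕ) : ℝ :=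
  μ.m (fun n => ‖∑ j ∈ range N, (f (n + j * h) : ℂ) * ee ((j : ℝ) * ((ξ : ℝ) / M))‖ ^ 2)

lemma bd_sq (hf : CM f) (h N : ℕ) (x : ℝ) :
    Bd (fun n => ‖∑ j ∈ range N, (f (n + j * h) : ℂ) * ee ((j : ℝ) * x)‖ ^ 2) := by
  have := bdmul (bd_exp_sum hf N h x) (bd_exp_sum hf N h x)
  simpa [sq] using this

lemma ρ_nonneg (hf : CM f) (h N M ξ : ℕ) : 0 ≤ ρ μ f h N M ξ :=
  μ.nonneg _ (bd_sq hf h N _) fun n => by positivity

lemma ρ_eq (hf : CM f) (h N M ξ : ℕ) :
    ρ μ f h N M ξ = ∑ i ∈ range N, ∑ j ∈ range N,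
      co ((((i : ℤ) - j : ℤ) : ℝ) * ((ξ : ℝ) / M)) * cc μ f h ((i : ℤ) - j) := by
  unfold ρ
  have h1 : (fun n => ‖∑ j ∈ range N, (f (n + j * h) : ℂ) * ee ((j : ℝ) * ((ξ : ℝ) / M))‖ ^ 2) =
      fun n => ∑ i ∈ range N, ∑ j ∈ range N, co ((((i : ℤ) - j : ℤ) : ℝ) * ((ξ : ℝ) / M)) *
        ((f (n + i * h) : ℝ) * f (n + j * h)) := by
    funext n
    have := norm_sq_real (fun j => (f (n + j * h) : ℝ)) N ((ξ : ℝ) / M)
    simpa using this
  rw [h1]
  have hb : ∀ i j : ℕ, Bd (fun n => (f (n + i * h) : ℝ) * f (n + j * h)) :=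
    fun i j => bdmul (fbd hf _) (fbd hf _)
  rw [μ.sum _ (fun i _ => Bd.sum _ (fun j _ => (hb i j).cmul _))]
  apply sum_congr rfl
  intro i _
  rw [μ.sum _ (fun j _ => (hb i j).cmul _)]
  apply sum_congr rfl
  intro j _
  rw [μ.smul _ _ (hb i j), corr hf]

lemma count1 (N k : ℕ) (hk : k ≤ N) (c : ℝ) :
    ∑ i ∈ range N, ∑ j ∈ range N, (if (j : ℤ) = (i : ℤ) + k then c else 0) = (N - k : ℝ) * c := by
  have h1 : ∀ i ∈ range N, ∑ j ∈ range N, (if (j : ℤ) = (i : ℤ) + k then c else 0) =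
      if i < N - k then c else 0 := by
    intro i _
    have h2 : ∀ j ∈ range N, (if (j : ℤ) = (i : ℤ) + k then c else 0) = if j = i + k then c else 0 := by
      intro j _
      refine if_congr ⟨fun h => ?_, fun h => ?_⟩ rfl rfl
      · omega
      · omega
    rw [sum_congr rfl h2, sum_ite_eq']
    refine if_congr ⟨fun h => ?_, fun h => ?_⟩ rfl rfl
    · rw [mem_range] at h; omega
    · rw [mem_range]; omega
  rw [sum_congr rfl h1, ← sum_filter, sum_const, nsmul_eq_mul]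
  congr 1
  have h3 : (range N).filter (fun i => i < N - k) = range (N - k) := by
    ext i
    simp only [mem_filter, mem_range]
    omega
  rw [h3, card_range, Nat.cast_sub hk]

/-- the finite Herglotz formula -/
lemma herglotz (hf : CM f) (h N : ℕ) (hN : 1 ≤ N) (k : ℕ) (hk : k < N) :
    ∑ ξ ∈ range (2 * N), ρ μ f h N (2 * N) ξ * co ((ξ : ℝ) * ((k : ℝ) / (2 * N : ℕ))) =
      (2 * N : ℝ) * (N - k) * cc μ f h k := by
  have h1 : ∀ ξ ∈ range (2 * N), ρ μ f h N (2 * N) ξ * co ((ξ : ℝ) * ((k : ℝ) / (2 * N : ℕ))) =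
      ∑ i ∈ range N, ∑ j ∈ range N, cc μ f h ((i : ℤ) - j) *
        ((co ((ξ : ℝ) * ((((i : ℤ) - j + k : ℤ) : ℝ) / (2 * N : ℕ))) +
          co ((ξ : ℝ) * ((((i : ℤ) - j - k : ℤ) : ℝ) / (2 * N : ℕ)))) / 2) := by
    intro ξ _
    rw [ρ_eq hf, sum_mul]
    apply sum_congr rfl
    intro i _
    rw [sum_mul]
    apply sum_congr rfl
    intro j _
    have h2 : (ξ : ℝ) * ((((i : ℤ) - j + k : ℤ) : ℝ) / (2 * N : ℕ)) =
        (((i : ℤ) - j : ℤ) : ℝ) * ((ξ : ℝ) / (2 * N : ℕ)) + (ξ : ℝ) * ((k : ℝ) / (2 * N : ℕ)) := by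
      push_cast; ring
    have h3 : (ξ : ℝ) * ((((i : ℤ) - j - k : ℤ) : ℝ) / (2 * N : ℕ)) =
        (((i : ℤ) - j : ℤ) : ℝ) * ((ξ : ℝ) / (2 * N : ℕ)) - (ξ : ℝ) * ((k : ℝ) / (2 * N : ℕ)) := by
      push_cast; ring
    rw [h2, h3, ← co_mul]
    ring
  rw [sum_congr rfl h1, sum_comm]
  have h2 : ∀ i ∈ range N, ∑ ξ ∈ range (2 * N), ∑ j ∈ range N, cc μ f h ((i : ℤ) - j) *
        ((co ((ξ : ℝ) * ((((i : ℤ) - j + k : ℤ) : ℝ) / (2 * N : ℕ))) +
          co ((ξ : ℝ) * ((((i : ℤ) - j - k : ℤ) : ℝ) / (2 * N : ℕ)))) / 2) =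
      ∑ j ∈ range N, ((if (j : ℤ) = (i : ℤ) + k then (N : ℝ) * cc μ f h k else 0) +
        (if (i : ℤ) = (j : ℤ) + k then (N : ℝ) * cc μ f h k else 0)) := by
    intro i hi
    rw [sum_comm]
    apply sum_congr rfl
    intro j hj
    rw [mem_range] at hi hj
    rw [← mul_sum, ← sum_div, sum_add_distrib, co_orth (2 * N) (by omega), co_orth (2 * N) (by omega)]
    have e1 : (((2 * N : ℕ) : ℤ) ∣ (i : ℤ) - j + k) ↔ (j : ℤ) = (i : ℤ) + k := by
      constructor
      · intro hd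
        have := Int.eq_zero_of_abs_lt_dvd hd (by rw [abs_lt]; constructor <;> push_cast <;> omega)
        omega
      · intro he
        have : (i : ℤ) - j + k = 0 := by omega
        rw [this]
        exact dvd_zero _
    have e2 : (((2 * N : ℕ) : ℤ) ∣ (i : ℤ) - j - k) ↔ (i : ℤ) = (j : ℤ) + k := by
      constructor
      · intro hd
        have := Int.eq_zero_of_abs_lt_dvd hd (by rw [abs_lt]; constructor <;> push_cast <;> omega)
        omega
      · intro he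
        have : (i : ℤ) - j - k = 0 := by omega
        rw [this]
        exact dvd_zero _
    rw [if_congr e1 rfl rfl, if_congr e2 rfl rfl]
    have c1 : (j : ℤ) = (i : ℤ) + k → cc μ f h ((i : ℤ) - j) = cc μ f h k := by
      intro he
      rw [← cc_neg h (k : ℤ)]
      congr 1
      omega
    have c2 : (i : ℤ) = (j : ℤ) + k → cc μ f h ((i : ℤ) - j) = cc μ f h k := by
      intro he
      congr 1
      omega
    by_cases d1 : (j : ℤ) = (i : ℤ) + k <;> by_cases d2 : (i : ℤ) = (j : ℤ) + k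
    · rw [if_pos d1, if_pos d2, if_pos d1, if_pos d2, c1 d1]
      push_cast; ring
    · rw [if_pos d1, if_neg d2, if_pos d1, if_neg d2, c1 d1]
      push_cast; ring
    · rw [if_neg d1, if_pos d2, if_neg d1, if_pos d2, c2 d2]
      push_cast; ring
    · rw [if_neg d1, if_neg d2, if_neg d1, if_neg d2]
      ring
  rw [sum_congr rfl h2]
  simp only [sum_add_distrib]
  rw [count1 N k hk.le]
  have h3 : ∑ i ∈ range N, ∑ j ∈ range N, (if (i : ℤ) = (j : ℤ) + k then (N : ℝ) * cc μ f h k else 0) =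
      (N - k : ℝ) * ((N : ℝ) * cc μ f h k) := by
    rw [sum_comm, count1 N k hk.le]
  rw [h3]
  ring

/-- the mean square of the correlations -/
lemma step3 (hf : CM f) (h H : ℕ) (hH : 1 ≤ H) (V : ℝ)
    (hV : ∀ α : ℝ, μ.m (fun n => ‖∑ k ∈ range H, (f (n + k * h) : ℂ) * ee ((k : ℝ) * α)‖) ≤ V) :
    ∑ k ∈ range H, cc μ f h k ^ 2 ≤ 2 * V := by
  set N := 2 * H with hN
  have hN0 : (0 : ℝ) < N := by exact_mod_cast (by omega : 0 < N)
  have hNH : (N : ℝ) = 2 * H := by rw [hN]; push_cast; ring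
  have hH0 : (0 : ℝ) < H := by exact_mod_cast (by omega : 0 < H)
  -- the total mass
  have hmass : ∑ ξ ∈ range (2 * N), ρ μ f h N (2 * N) ξ = 2 * (N : ℝ) * N := by
    have := herglotz (μ := μ) hf h N (by omega) 0 (by omega)
    simp only [Nat.cast_zero, zero_div, mul_zero, sub_zero] at this
    rw [cc_zero hf] at this
    have hc : co 0 = 1 := by unfold co; simp
    rw [hc] at this
    simpa using this
  -- the bound at one frequency
  have hone : ∀ ξ : ℕ, ∑ k ∈ range H, cc μ f h k * co ((ξ : ℝ) * ((k : ℝ) / (2 * N : ℕ))) ≤ V := by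
    intro ξ
    refine le_trans ?_ (hV ((ξ : ℝ) / (2 * N : ℕ)))
    have e1 : ∑ k ∈ range H, cc μ f h k * co ((ξ : ℝ) * ((k : ℝ) / (2 * N : ℕ))) =
        μ.m (fun n => ∑ k ∈ range H, co ((k : ℝ) * ((ξ : ℝ) / (2 * N : ℕ))) * ((f n : ℝ) * f (n + k * h))) := by
      have hb : ∀ k ∈ range H, Bd (fun n => co ((k : ℝ) * ((ξ : ℝ) / (2 * N : ℕ))) * ((f n : ℝ) * f (n + k * h))) :=
        fun k _ => (bdmul (fbd hf _) (fbd hf _)).cmul _
      rw [μ.sum _ hb]
      apply sum_congr rfl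
      intro k _
      rw [μ.smul _ _ (bdmul (fbd hf _) (fbd hf _)), cc_nat]
      unfold C2
      rw [mul_comm]
      congr 2
      ring
    rw [e1]
    apply μ.mono
    · exact Bd.sum _ fun k _ => (bdmul (fbd hf _) (fbd hf _)).cmul _
    · exact bd_exp_sum hf H h _
    · intro n
      have e2 : ∑ k ∈ range H, co ((k : ℝ) * ((ξ : ℝ) / (2 * N : ℕ))) * ((f n : ℝ) * f (n + k * h)) =
          (f n : ℝ) * (∑ k ∈ range H, (f (n + k * h) : ℂ) * ee ((k : ℝ) * ((ξ : ℝ) / (2 * N : ℕ)))).re := by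
        rw [Complex.re_sum, mul_sum]
        apply sum_congr rfl
        intro k _
        have e3 : ((f (n + k * h) : ℂ) * ee ((k : ℝ) * ((ξ : ℝ) / (2 * N : ℕ)))).re =
            (f (n + k * h) : ℝ) * co ((k : ℝ) * ((ξ : ℝ) / (2 * N : ℕ))) := by
          have : (f (n + k * h) : ℂ) = ((f (n + k * h) : ℝ) : ℂ) := by push_cast; rfl
          rw [this, Complex.re_ofReal_mul, ee_re]
        rw [e3]
        ring
      rw [e2]
      calc _ ≤ |(f n : ℝ) * (∑ k ∈ range H, (f (n + k * h) : ℂ) * ee ((k : ℝ) * ((ξ : ℝ) / (2 * N : ℕ)))).re| := le_abs_self _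
        _ ≤ 1 * ‖∑ k ∈ range H, (f (n + k * h) : ℂ) * ee ((k : ℝ) * ((ξ : ℝ) / (2 * N : ℕ)))‖ := by
          rw [abs_mul]
          exact mul_le_mul (fabs hf n) (Complex.abs_re_le_norm _) (abs_nonneg _) zero_le_one
        _ = _ := one_mul _
  -- combine
  have hmain : ∑ k ∈ range H, ((2 * N : ℝ) * (N - k) * cc μ f h k) * cc μ f h k ≤ (2 * (N : ℝ) * N) * V := by
    have e1 : ∑ k ∈ range H, ((2 * N : ℝ) * (N - k) * cc μ f h k) * cc μ f h k =
        ∑ ξ ∈ range (2 * N), ρ μ f h N (2 * N) ξ *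
          ∑ k ∈ range H, cc μ f h k * co ((ξ : ℝ) * ((k : ℝ) / (2 * N : ℕ))) := by
      have e2 : ∀ k ∈ range H, ((2 * N : ℝ) * (N - k) * cc μ f h k) * cc μ f h k =
          ∑ ξ ∈ range (2 * N), ρ μ f h N (2 * N) ξ * (cc μ f h k * co ((ξ : ℝ) * ((k : ℝ) / (2 * N : ℕ)))) := by
        intro k hk
        rw [mem_range] at hk
        rw [← herglotz hf h N (by omega) k (by omega), sum_mul]
        apply sum_congr rfl
        intro ξ _
        ring
      rw [sum_congr rfl e2, sum_comm]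
      apply sum_congr rfl
      intro ξ _
      rw [mul_sum]
    rw [e1, ← hmass, sum_mul]
    exact sum_le_sum fun ξ _ => mul_le_mul_of_nonneg_left (hone ξ) (ρ_nonneg hf h N (2 * N) ξ)
  have hlow : (N : ℝ) * N * ∑ k ∈ range H, cc μ f h k ^ 2 ≤
      ∑ k ∈ range H, ((2 * N : ℝ) * (N - k) * cc μ f h k) * cc μ f h k := by
    rw [mul_sum]
    apply sum_le_sum
    intro k hk
    rw [mem_range] at hk
    have hk1 : (k : ℝ) ≤ H := by exact_mod_cast hk.le
    have e1 : ((2 * N : ℝ) * (N - k) * cc μ f h k) * cc μ f h k = ((2 * N : ℝ) * (N - k)) * cc μ f h k ^ 2 := by ring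
    rw [e1]
    apply mul_le_mul_of_nonneg_right _ (sq_nonneg _)
    nlinarith
  have h5 := hlow.trans hmain
  have h6 : (N : ℝ) * N * ∑ k ∈ range H, cc μ f h k ^ 2 ≤ (N : ℝ) * N * (2 * V) := by
    calc _ ≤ (2 * (N : ℝ) * N) * V := h5
      _ = _ := by ring
  exact le_of_mul_le_mul_left h6 (by positivity)

end Pool.Agent.Y642.LT
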